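import Pool.Agent.W689.Ch.Main

/-!
# Velocities with undefined exponential map

The set of the velocities with defined exponential map is open, and the set of the others depends
lower semicontinuously on the point.
-/

set_option autoImplicit false

open Set Filter Topology Metric

namespace Pool.Agent.TH289.N

open Pool.Agent.W689.Mk (Sec Ex Geod exists_sec sec_of_target sec_of_Ex lin hol_add)
open Pool.Agent.W689.Ch (AffMfd)

section
variable {X E : Type} [TopologicalSpace X] [T2Space X] [NormedAddCommGroup E] [NormedSpace ℝ E]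
  {dev : X → E}

/-- the exponential map at `x` is defined at `v` -/
def Dom (dev : X → E) (x : X) (v : E) : Prop := ∃ y, Ex dev x v y

theorem dom_iff (hloc : IsLocalHomeomorph dev) {x : X} {v : E} : Dom dev x v ↔ Geod dev x v :=
  ⟨fun ⟨_, hy⟩ => hy.geod, fun h => h.ex hloc⟩

theorem dom_open (hloc : IsLocalHomeomorph dev) {x0 : X} {v0 : E} (h : Dom dev x0 v0) :
    ∀ᶠ z : X × E in 𝓝 (x0, v0), Dom dev z.1 z.2 := by
  obtain ⟨y, U, σ, h1, h2, h3, h4, h5⟩ := h
  have ho := h1.isOpen_image hloc h1.isOpen Subset.rfl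
  have e1 : ∀ᶠ z : X × E in 𝓝 (x0, v0), z.1 ∈ σ '' U :=
    continuousAt_fst.eventually_mem (ho.mem_nhds ⟨_, h2, h3⟩)
  have e2 : ∀ᶠ z : X × E in 𝓝 (x0, v0), dev z.1 + z.2 ∈ U := by
    have hc : Continuous fun z : X × E => dev z.1 + z.2 :=
      (hloc.continuous.comp continuous_fst).add continuous_snd
    exact hc.continuousAt.eventually_mem (h1.isOpen.mem_nhds h4)
  filter_upwards [e1, e2] with z hz1 hz2
  obtain ⟨q, hq, hqz⟩ := hz1
  have hd : dev z.1 = q := by rw [← hqz]; exact h1.inv q hq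
  exact ⟨σ (dev z.1 + z.2), U, σ, h1, by rw [hd]; exact hq, by rw [hd, hqz], hz2, rfl⟩

omit [T2Space X] in
theorem dom_smul_le {x : X} {v : E} (h : Dom dev x v) {t : ℝ} (h0 : 0 ≤ t) (h1 : t ≤ 1) :
    Dom dev x (t • v) := by
  obtain ⟨y, U, σ, g1, g2, g3, g4, g5⟩ := h
  refine ⟨σ (dev x + t • v), U, σ, g1, g2, g3, ?_, rfl⟩
  have := g1.convex g2 g4 (a := 1 - t) (b := t) (by linarith) h0 (by ring)
  convert this using 1
  module

/-- lower semicontinuity of the set of the velocities with undefined exponential map -/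
theorem lsc (hloc : IsLocalHomeomorph dev) {x0 : X} {v0 : E} (h : ¬ Dom dev x0 v0) {ε : ℝ}
    (hε : 0 < ε) : ∀ᶠ x in 𝓝 x0, ∃ v, ‖v - v0‖ < ε ∧ ¬ Dom dev x v := by
  obtain ⟨e, r, hxe, he, hr, hrt⟩ := exists_sec hloc x0
  have hτ := sec_of_target e he (dev x0) r hrt
  have hce : e.symm (dev x0) = x0 := by rw [he]; exact e.left_inv hxe
  obtain ⟨t0, ht0⟩ : ∃ t0 : ℝ, t0 = min 1 (r / (2 * (‖v0‖ + 1))) := ⟨_, rfl⟩
  have hv1 : 0 < ‖v0‖ + 1 := by positivity
  have t0pos : 0 < t0 := by rw [ht0]; exact lt_min one_pos (by positivity)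
  have t0le : t0 ≤ 1 := by rw [ht0]; exact min_le_left _ _
  have t0v : t0 * ‖v0‖ < r / 2 := by
    have h1 : t0 ≤ r / (2 * (‖v0‖ + 1)) := by rw [ht0]; exact min_le_right _ _
    have h2 : t0 * (‖v0‖ + 1) ≤ r / 2 := by
      calc t0 * (‖v0‖ + 1) ≤ r / (2 * (‖v0‖ + 1)) * (‖v0‖ + 1) := by gcongr
        _ = r / 2 := by field_simp
    nlinarith
  obtain ⟨δ, hδ⟩ : ∃ δ : ℝ, δ = min (t0 * ε) (r / 2) := ⟨_, rfl⟩
  have δpos : 0 < δ := by rw [hδ]; exact lt_min (by positivity) (by positivity)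
  have δ1 : δ ≤ t0 * ε := by rw [hδ]; exact min_le_left _ _
  have δ2 : δ ≤ r / 2 := by rw [hδ]; exact min_le_right _ _
  have hop := hτ.isOpen_image hloc (V := ball (dev x0) δ) isOpen_ball
    (ball_subset_ball (by linarith))
  filter_upwards [hop.mem_nhds ⟨dev x0, mem_ball_self δpos, hce⟩] with x hx
  obtain ⟨p, hp, hpx⟩ := hx
  have hdx : dev x = p := by
    rw [← hpx]; exact hτ.inv p (ball_subset_ball (by linarith) hp)
  have hpn : ‖p - dev x0‖ < δ := by rwa [mem_ball, dist_eq_norm] at hp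
  by_contra hcon
  push Not at hcon
  have hD : ∀ v, ‖v - v0‖ < ε → Dom dev x v := fun v hv => hcon v hv
  let H : Set E := ⋃ t ∈ Ioc (0 : ℝ) 1, ball (t • v0) (t * ε)
  have hHo : IsOpen H := isOpen_biUnion fun _ _ => isOpen_ball
  have hHc : Convex ℝ H := by
    intro u1 hu1 u2 hu2 a b ha hb hab
    obtain ⟨t1, ht1, hu1⟩ := mem_iUnion₂.1 hu1
    obtain ⟨t2, ht2, hu2⟩ := mem_iUnion₂.1 hu2
    rw [mem_ball, dist_eq_norm] at hu1 hu2
    have hpos : 0 < a * t1 + b * t2 := by
      rcases eq_or_lt_of_le ha with h0 | h0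
      · have hb1 : b = 1 := by linarith
        rw [← h0, hb1, zero_mul, zero_add, one_mul]; exact ht2.1
      · have := mul_pos h0 ht1.1
        have := mul_nonneg hb ht2.1.le
        linarith
    refine mem_iUnion₂.2 ⟨a * t1 + b * t2, ⟨hpos, ?_⟩, ?_⟩
    · have := mul_le_mul_of_nonneg_left ht1.2 ha
      have := mul_le_mul_of_nonneg_left ht2.2 hb
      linarith
    · rw [mem_ball, dist_eq_norm]
      have e1 : a • u1 + b • u2 - (a * t1 + b * t2) • v0 =
          a • (u1 - t1 • v0) + b • (u2 - t2 • v0) := by module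
      rw [e1]
      calc ‖a • (u1 - t1 • v0) + b • (u2 - t2 • v0)‖
          ≤ ‖a • (u1 - t1 • v0)‖ + ‖b • (u2 - t2 • v0)‖ := norm_add_le _ _
        _ = a * ‖u1 - t1 • v0‖ + b * ‖u2 - t2 • v0‖ := by
          rw [norm_smul, norm_smul, Real.norm_of_nonneg ha, Real.norm_of_nonneg hb]
        _ < a * (t1 * ε) + b * (t2 * ε) := by
          rcases eq_or_lt_of_le ha with h0 | h0
          · have hb1 : b = 1 := by linarith
            rw [← h0, hb1]; linarith
          · have h1 := mul_lt_mul_of_pos_left hu1 h0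
            have h2 := mul_le_mul_of_nonneg_left hu2.le hb
            linarith
        _ = (a * t1 + b * t2) * ε := by ring
  have hHD : ∀ v ∈ H, ∃ y, Ex dev x v y := by
    intro u hu
    obtain ⟨t, ht, hu⟩ := mem_iUnion₂.1 hu
    rw [mem_ball, dist_eq_norm] at hu
    have h1 : Dom dev x (t⁻¹ • u) := by
      apply hD
      have e1 : t⁻¹ • u - v0 = t⁻¹ • (u - t • v0) := by
        rw [smul_sub, inv_smul_smul₀ ht.1.ne']
      rw [e1, norm_smul, Real.norm_of_nonneg (inv_nonneg.2 ht.1.le)]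
      calc t⁻¹ * ‖u - t • v0‖ < t⁻¹ * (t * ε) :=
            mul_lt_mul_of_pos_left hu (inv_pos.2 ht.1)
        _ = ε := inv_mul_cancel_left₀ ht.1.ne' ε
    have h2 := dom_smul_le h1 ht.1.le ht.2
    rwa [smul_inv_smul₀ ht.1.ne'] at h2
  obtain ⟨σ1, hσ1, hσE⟩ := sec_of_Ex hloc (x := x) hHo hHc hHD
  have ht0H : t0 • v0 ∈ H := mem_iUnion₂.2 ⟨t0, ⟨t0pos, t0le⟩, mem_ball_self (by positivity)⟩
  have hq1 : p + t0 • v0 ∈ ball (dev x0) r := by
    rw [mem_ball, dist_eq_norm]
    have e1 : p + t0 • v0 - dev x0 = (p - dev x0) + t0 • v0 := by abel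
    rw [e1]
    calc ‖(p - dev x0) + t0 • v0‖ ≤ ‖p - dev x0‖ + ‖t0 • v0‖ := norm_add_le _ _
      _ = ‖p - dev x0‖ + t0 * ‖v0‖ := by rw [norm_smul, Real.norm_of_nonneg t0pos.le]
      _ < r := by linarith
  have hq2 : p + t0 • v0 ∈ (fun q => q - dev x) ⁻¹' H := by
    show p + t0 • v0 - dev x ∈ H
    rw [hdx, add_sub_cancel_left]; exact ht0H
  have hagree : e.symm (p + t0 • v0) = σ1 (p + t0 • v0) := by
    have h1 := hτ.Ex (q := p) (v := t0 • v0) (ball_subset_ball (by linarith) hp) hq1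
    have h2 := hσE _ ht0H
    rw [hpx] at h1
    rw [hdx] at h2
    exact h1.unique hloc h2
  have hseg : segment ℝ (dev x0) (dev x0 + v0) ⊆
      ball (dev x0) r ∪ (fun q => q - dev x) ⁻¹' H := by
    rintro z ⟨a, s, ha, hs, has, rfl⟩
    have e1 : a • dev x0 + s • (dev x0 + v0) = dev x0 + s • v0 := by
      have : a = 1 - s := by linarith
      rw [this]; module
    rw [e1]
    rcases le_or_gt s t0 with hst | hst
    · left
      rw [mem_ball, dist_eq_norm, add_sub_cancel_left, norm_smul, Real.norm_of_nonneg hs]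
      have := mul_le_mul_of_nonneg_right hst (norm_nonneg v0)
      linarith
    · right
      show dev x0 + s • v0 - dev x ∈ H
      refine mem_iUnion₂.2 ⟨s, ⟨by linarith, by linarith⟩, ?_⟩
      rw [mem_ball, dist_eq_norm, hdx]
      have e2 : dev x0 + s • v0 - p - s • v0 = -(p - dev x0) := by abel
      rw [e2, norm_neg]
      have : t0 * ε < s * ε := mul_lt_mul_of_pos_right hst hε
      linarith
  have hScpt : IsCompact (segment ℝ (dev x0) (dev x0 + v0)) := by
    rw [segment_eq_image_lineMap]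
    exact isCompact_Icc.image (AffineMap.lineMap_continuous)
  obtain ⟨η, hη, hηs⟩ := hScpt.exists_thickening_subset_open (isOpen_ball.union hσ1.isOpen) hseg
  obtain ⟨τ, g1, g2, -⟩ := hτ.glue hloc hσ1 hq1 hq2 hagree (V := thickening η (segment ℝ (dev x0) (dev x0 + v0)))
    isOpen_thickening ((convex_segment _ _).thickening η) hηs
  apply h
  refine ⟨τ (dev x0 + v0), _, τ, g1, self_subset_thickening hη _ (left_mem_segment ℝ _ _), ?_,
    self_subset_thickening hη _ (right_mem_segment ℝ _ _), rfl⟩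
  rw [g2 _ (mem_ball_self hr), hce]

end

section
variable {X Γ E : Type} [TopologicalSpace X] [T2Space X] [Group Γ] [MulAction Γ X]
  [NormedAddCommGroup E] [NormedSpace ℝ E] [FiniteDimensional ℝ E]
  {dev : X → E} {hol : Γ →* (E ≃ᵃ[ℝ] E)}

theorem dom_smul (D : AffMfd X Γ E dev hol) (γ : Γ) {x : X} {v : E} (h : Dom dev x v) :
    Dom dev (γ • x) (lin hol γ v) := by
  rw [dom_iff D.loc] at h ⊢
  obtain ⟨c, hc, hc0, hcd⟩ := h
  refine ⟨fun t => γ • c t, (D.cont γ).comp_continuousOn hc, by beta_reduce; rw [hc0],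
    fun t ht => ?_⟩
  rw [D.equi, hcd t ht, hol_add, D.equi]
  congr 1
  exact map_smul (hol γ).linear t v

end

end Pool.Agent.TH289.N
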