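import Pool.Agent.TH289.N.A1
import Pool.Agent.TH289.N.A0

/-!
# Minimisers over continuous families of closed sets of velocities
-/

set_option autoImplicit false

open Set Filter Topology Metric

namespace Pool.Agent.TH289.N

open Pool.Agent.W689.Mk (lin lin_mul lin_inv_apply)
open Pool.Agent.W689.Ch (AffMfd Wt exists_wt cont_tsum locfin_of locComp)

section
variable {X E : Type} [TopologicalSpace X] [NormedAddCommGroup E] [NormedSpace ℝ E]

/-- the minimisers of `f x` over the set `S x` -/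
def Mn (S : X → Set E) (f : X → E → ℝ) (x : X) : Set E :=
  {v | v ∈ S x ∧ ∀ w ∈ S x, f x v ≤ f x w}

/-- `f` is proper on the fibres, locally uniformly -/
def Proper (f : X → E → ℝ) : Prop :=
  ∀ (x0 : X) (C : ℝ), ∃ R : ℝ, ∀ᶠ x in 𝓝 x0, ∀ v, f x v ≤ C → ‖v‖ ≤ R

/-- a continuous family of closed sets -/
structure Cont (S : X → Set E) : Prop where
  /-- the family has a closed graph -/
  cl : ∀ x0 v0, v0 ∉ S x0 → ∀ᶠ z : X × E in 𝓝 (x0, v0), z.2 ∉ S z.1
  /-- the family is lower semicontinuous -/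
  lsc : ∀ x0, ∀ v0 ∈ S x0, ∀ ε : ℝ, 0 < ε → ∀ᶠ x in 𝓝 x0, ∃ v ∈ S x, ‖v - v0‖ < ε

variable {S : X → Set E}

theorem closed_fibre (hS : Cont S) (x : X) : IsClosed (S x) := by
  rw [← isOpen_compl_iff, isOpen_iff_mem_nhds]
  intro v hv
  have h1 := hS.cl x v hv
  have h2 : ∀ᶠ w in 𝓝 v, w ∉ S x :=
    (Continuous.prodMk_right x).continuousAt.eventually h1
  filter_upwards [h2] with w hw
  exact hw

theorem val_lt (hS : Cont S) {f : X → E → ℝ}
    (hf : Continuous fun z : X × E => f z.1 z.2) {x0 : X} {w : E} (hw : w ∈ S x0) {c : ℝ}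
    (hc : f x0 w < c) : ∀ᶠ x in 𝓝 x0, ∃ w' ∈ S x, f x w' < c := by
  have h1 : ∀ᶠ z : X × E in 𝓝 (x0, w), f z.1 z.2 < c :=
    (hf.continuousAt (x := (x0, w))).eventually_mem (Iio_mem_nhds hc)
  rw [nhds_prod_eq, eventually_prod_iff] at h1
  obtain ⟨pa, hpa, pb, hpb, hab⟩ := h1
  obtain ⟨ε, hε, hb⟩ := Metric.eventually_nhds_iff.1 hpb
  filter_upwards [hpa, hS.lsc x0 w hw ε hε] with x hx ⟨w', hd, hw'⟩
  exact ⟨w', hd, hab hx (hb (by rwa [dist_eq_norm]))⟩

variable [FiniteDimensional ℝ E]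

theorem mn_compact (hS : Cont S) {f : X → E → ℝ}
    (hf : Continuous fun z : X × E => f z.1 z.2) (hp : Proper f) (x : X) :
    IsCompact (Mn S f x) := by
  have hfx : Continuous (f x) := hf.comp (Continuous.prodMk_right x)
  rcases (Mn S f x).eq_empty_or_nonempty with h | ⟨v0, hv0⟩
  · rw [h]; exact isCompact_empty
  obtain ⟨R, hR⟩ := hp x (f x v0)
  have hR' := hR.self_of_nhds
  have h1 : Mn S f x = S x ∩ {v | f x v ≤ f x v0} := by
    ext v
    constructor
    · intro hv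
      exact ⟨hv.1, hv.2 v0 hv0.1⟩
    · intro hv
      exact ⟨hv.1, fun w hw => le_trans hv.2 (hv0.2 w hw)⟩
  rw [h1]
  refine (isCompact_closedBall (0 : E) R).of_isClosed_subset
    ((closed_fibre hS x).inter (isClosed_le hfx continuous_const)) fun v hv => ?_
  rw [mem_closedBall_zero_iff]
  exact hR' v hv.2

theorem mn_nonempty (hS : Cont S) {f : X → E → ℝ}
    (hf : Continuous fun z : X × E => f z.1 z.2) (hp : Proper f) {x : X}
    (hx : (S x).Nonempty) : (Mn S f x).Nonempty := by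
  have hfx : Continuous (f x) := hf.comp (Continuous.prodMk_right x)
  obtain ⟨v0, hv0⟩ := hx
  obtain ⟨R, hR⟩ := hp x (f x v0)
  have hR' := hR.self_of_nhds
  have hc : IsCompact (S x ∩ {v | f x v ≤ f x v0}) := by
    refine (isCompact_closedBall (0 : E) R).of_isClosed_subset
      ((closed_fibre hS x).inter (isClosed_le hfx continuous_const)) fun v hv => ?_
    rw [mem_closedBall_zero_iff]
    exact hR' v hv.2
  obtain ⟨v, hv, hmin⟩ := hc.exists_isMinOn ⟨v0, hv0, le_refl (f x v0)⟩ hfx.continuousOn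
  refine ⟨v, hv.1, fun w hw => ?_⟩
  rcases le_total (f x w) (f x v0) with h | h
  · exact hmin ⟨hw, h⟩
  · exact le_trans hv.2 h

/-- functionals that are positive on the minimisers stay so nearby -/
theorem mn_usc (hS : Cont S) {f : X → E → ℝ}
    (hf : Continuous fun z : X × E => f z.1 z.2) (hp : Proper f) {x0 : X}
    (hx : (S x0).Nonempty) {φ : E →L[ℝ] ℝ} (hφ : ∀ v ∈ Mn S f x0, 0 < φ v) :
    ∀ᶠ x in 𝓝 x0, ∀ v ∈ Mn S f x, 0 < φ v := by
  obtain ⟨w0, hw0⟩ := hx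
  obtain ⟨R, hR⟩ := hp x0 (f x0 w0 + 1)
  have h1 := val_lt hS hf hw0 (c := f x0 w0 + 1) (by linarith)
  have h2 : ∀ᶠ x in 𝓝 x0, ∀ v ∈ closedBall (0 : E) R, v ∈ Mn S f x → 0 < φ v := by
    refine (isCompact_closedBall (0 : E) R).eventually_forall_of_forall_eventually
      (P := fun x v => v ∈ Mn S f x → 0 < φ v) fun v _ => ?_
    rcases lt_or_ge 0 (φ v) with h | h
    · have h3 : ∀ᶠ z : X × E in 𝓝 (x0, v), 0 < φ z.2 :=
        ((φ.continuous.comp continuous_snd).continuousAt (x := (x0, v))).eventually_mem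
          (Ioi_mem_nhds h)
      filter_upwards [h3] with z hz _ using hz
    · by_cases hd : v ∉ S x0
      · filter_upwards [hS.cl x0 v hd] with z hz hzM
        exact absurd hzM.1 hz
      · push Not at hd
        have hnot : v ∉ Mn S f x0 := fun hv => absurd (hφ v hv) (not_lt.2 h)
        have h4 : ∃ w ∈ S x0, f x0 w < f x0 v := by
          by_contra hcon
          push Not at hcon
          exact hnot ⟨hd, fun w hw => hcon w hw⟩
        obtain ⟨w, hw, hlt⟩ := h4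
        have h5 := val_lt hS hf hw (c := (f x0 w + f x0 v) / 2) (by linarith)
        have h6 : ∀ᶠ z : X × E in 𝓝 (x0, v), (f x0 w + f x0 v) / 2 < f z.1 z.2 :=
          (hf.continuousAt (x := (x0, v))).eventually_mem (Ioi_mem_nhds (by
            show (f x0 w + f x0 v) / 2 < f x0 v
            linarith))
        have h7 : ∀ᶠ z : X × E in 𝓝 (x0, v),
            ∃ w' ∈ S z.1, f z.1 w' < (f x0 w + f x0 v) / 2 :=
          (continuous_fst.continuousAt (x := (x0, v))).eventually h5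
        filter_upwards [h6, h7] with z hz6 ⟨w', hw', hlt'⟩ hzM
        have := hzM.2 w' hw'
        linarith
  filter_upwards [h1, h2, hR] with x ⟨w', hw', hlt⟩ hx2 hxR v hv
  refine hx2 v ?_ hv
  rw [mem_closedBall_zero_iff]
  exact hxR v (le_trans (hv.2 w' hw') hlt.le)

/-- if the origin is not in the convex hull of the minimisers, some functional is positive on
them -/
theorem exists_pos (hS : Cont S) {f : X → E → ℝ}
    (hf : Continuous fun z : X × E => f z.1 z.2) (hp : Proper f) {x : X}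
    (h0 : (0 : E) ∉ convexHull ℝ (Mn S f x)) : ∃ φ : E →L[ℝ] ℝ, ∀ v ∈ Mn S f x, 0 < φ v := by
  have hc := isCompact_convexHull_of_isCompact (mn_compact hS hf hp x)
  obtain ⟨φ, u, h1, h2⟩ := geometric_hahn_banach_point_closed (convex_convexHull ℝ _) hc.isClosed h0
  refine ⟨φ, fun v hv => ?_⟩
  have h3 := h2 v (subset_convexHull ℝ _ hv)
  rw [map_zero] at h1
  linarith

end

section
variable {X Γ E : Type} [TopologicalSpace X] [T2Space X] [Group Γ] [MulAction Γ X]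
  [NormedAddCommGroup E] [NormedSpace ℝ E] [FiniteDimensional ℝ E]
  {dev : X → E} {hol : Γ →* (E ≃ᵃ[ℝ] E)}

/-- the linear holonomy as a continuous linear map -/
noncomputable def cl (hol : Γ →* (E ≃ᵃ[ℝ] E)) (γ : Γ) : E →L[ℝ] E :=
  LinearMap.toContinuousLinearMap ((hol γ).linear : E →ₗ[ℝ] E)

omit [TopologicalSpace X] [T2Space X] [MulAction Γ X] in
theorem cl_apply (γ : Γ) (v : E) : cl hol γ v = lin hol γ v := rfl

theorem mn_smul {S : X → Set E} (hSi : ∀ (γ : Γ) x, ∀ v ∈ S x, lin hol γ v ∈ S (γ • x))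
    {f : X → E → ℝ} (hi : ∀ (γ : Γ) x v, f (γ • x) (lin hol γ v) = f x v) (γ : Γ) {x : X} {v : E}
    (hv : v ∈ Mn S f x) : lin hol γ v ∈ Mn S f (γ • x) := by
  refine ⟨hSi γ x v hv.1, fun w hw => ?_⟩
  have h0 := hSi γ⁻¹ _ w hw
  rw [inv_smul_smul] at h0
  have h1 := hv.2 _ h0
  have h2 : lin hol γ (lin hol γ⁻¹ w) = w := by
    have := lin_inv_apply (hol := hol) γ⁻¹ w
    rwa [inv_inv] at this
  have h3 := hi γ x (lin hol γ⁻¹ w)
  rw [h2] at h3
  rw [hi, h3]
  exact h1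

/-- averages of vector valued functions are equivariant vector fields -/
theorem avg (D : AffMfd X Γ E dev hol) {ρ : X → ℝ} (hρ : Wt Γ ρ) {W : X → E}
    (hW : Continuous W) :
    (Continuous fun x => ∑' γ : Γ, ρ (γ • x) • lin hol γ⁻¹ (W (γ • x))) ∧
    ∀ (δ : Γ) x, ∑' γ : Γ, ρ (γ • δ • x) • lin hol γ⁻¹ (W (γ • δ • x)) =
      lin hol δ (∑' γ : Γ, ρ (γ • x) • lin hol γ⁻¹ (W (γ • x))) := by
  constructor
  · refine cont_tsum (fun γ => ?_) fun x => ?_
    · exact (hρ.cont.comp (D.cont γ)).smul ((cl hol γ⁻¹).continuous.comp (hW.comp (D.cont γ)))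
    · obtain ⟨U, hU, F, hF⟩ := hρ.locfin x
      exact ⟨U, hU, F, fun γ hγ y hy => by rw [hF γ hγ y hy, zero_smul]⟩
  · intro δ x
    have hs : Summable fun γ : Γ => ρ (γ • x) • lin hol γ⁻¹ (W (γ • x)) := by
      obtain ⟨U, hU, F, hF⟩ := hρ.locfin x
      exact summable_of_ne_finset_zero (s := F) fun γ hγ => by
        rw [hF γ hγ x (mem_of_mem_nhds hU), zero_smul]
    rw [← cl_apply δ, (cl hol δ).map_tsum hs]
    rw [← Equiv.tsum_eq (Equiv.mulRight δ)
      (fun γ : Γ => cl hol δ (ρ (γ • x) • lin hol γ⁻¹ (W (γ • x))))]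
    refine tsum_congr fun γ => ?_
    show ρ (γ • δ • x) • lin hol γ⁻¹ (W (γ • δ • x)) =
      cl hol δ (ρ ((γ * δ) • x) • lin hol (γ * δ)⁻¹ (W ((γ * δ) • x)))
    rw [map_smul, cl_apply, ← lin_mul, mul_inv_rev, ← mul_assoc, mul_inv_cancel, one_mul,
      smul_smul]

/-- an equivariant covector field without zeros gives a vector field without zeros -/
theorem field_of_covector (D : AffMfd X Γ E dev hol) {Φ : X → E →L[ℝ] ℝ} (hΦ : Continuous Φ)
    (he : ∀ (γ : Γ) x v, Φ (γ • x) (lin hol γ v) = Φ x v) (h0 : ∀ x, Φ x ≠ 0) :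
    ∃ Z : X → E, Continuous Z ∧ (∀ (γ : Γ) x, Z (γ • x) = lin hol γ (Z x)) ∧ ∀ x, Z x ≠ 0 := by
  obtain ⟨ρ, hρ⟩ := exists_wt D
  let b := Module.finBasis ℝ E
  let W : X → E := fun x => ∑ i, Φ x (b i) • b i
  have hW : Continuous W := continuous_finsetSum _ fun i _ =>
    (hΦ.clm_apply continuous_const).smul continuous_const
  obtain ⟨h1, h2⟩ := avg D hρ hW
  refine ⟨_, h1, h2, fun x hx => ?_⟩
  have hWp : ∀ y, 0 < Φ y (W y) := by
    intro y
    have e1 : Φ y (W y) = ∑ i, Φ y (b i) ^ 2 := by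
      show Φ y (∑ i, Φ y (b i) • b i) = _
      rw [map_sum]
      exact Finset.sum_congr rfl fun i _ => by rw [map_smul, smul_eq_mul, sq]
    have hnn : ∀ i ∈ Finset.univ, 0 ≤ Φ y (b i) ^ 2 := fun i _ => sq_nonneg _
    rw [e1]
    refine lt_of_le_of_ne (Finset.sum_nonneg hnn) fun h => h0 y ?_
    have h3 := (Finset.sum_eq_zero_iff_of_nonneg hnn).1 h.symm
    apply ContinuousLinearMap.coe_injective
    refine b.ext fun i => ?_
    have := h3 i (Finset.mem_univ i)
    simpa using this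
  obtain ⟨U, hU, F, hF⟩ := hρ.locfin x
  have hxU := mem_of_mem_nhds hU
  have hs : ∑ γ ∈ F, ρ (γ • x) = 1 := by
    rw [← hρ.sum x]
    exact (tsum_eq_sum fun γ hγ => hF γ hγ x hxU).symm
  have h3 : ∑' γ : Γ, ρ (γ • x) • lin hol γ⁻¹ (W (γ • x)) =
      ∑ γ ∈ F, ρ (γ • x) • lin hol γ⁻¹ (W (γ • x)) :=
    tsum_eq_sum fun γ hγ => by rw [hF γ hγ x hxU, zero_smul]
  have h4 : Φ x (∑ γ ∈ F, ρ (γ • x) • lin hol γ⁻¹ (W (γ • x))) =
      ∑ γ ∈ F, ρ (γ • x) * Φ (γ • x) (W (γ • x)) := by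
    rw [map_sum]
    refine Finset.sum_congr rfl fun γ _ => ?_
    rw [map_smul, smul_eq_mul]
    congr 1
    have := he γ x (lin hol γ⁻¹ (W (γ • x)))
    have h5 : lin hol γ (lin hol γ⁻¹ (W (γ • x))) = W (γ • x) := by
      have := lin_inv_apply (hol := hol) γ⁻¹ (W (γ • x))
      rwa [inv_inv] at this
    rw [h5] at this
    exact this.symm
  have hnn : ∀ γ ∈ F, 0 ≤ ρ (γ • x) * Φ (γ • x) (W (γ • x)) := fun γ _ =>
    mul_nonneg (hρ.nonneg _) (hWp _).le
  have h6 : ∑ γ ∈ F, ρ (γ • x) * Φ (γ • x) (W (γ • x)) = 0 := by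
    rw [← h4, ← h3, hx, map_zero]
  have h7 := (Finset.sum_eq_zero_iff_of_nonneg hnn).1 h6
  have h8 : ∑ γ ∈ F, ρ (γ • x) = 0 := Finset.sum_eq_zero fun γ hγ => by
    rcases mul_eq_zero.1 (h7 γ hγ) with h | h
    · exact h
    · exact absurd h (hWp _).ne'
  rw [hs] at h8
  exact one_ne_zero h8

end

end Pool.Agent.TH289.N
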