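import Pool.Agent.TH289.N.A2

/-!
# Affine manifolds without critical points of the distance to incompleteness
-/

set_option autoImplicit false

open Set Filter Topology Metric

namespace Pool.Agent.TH289.N

open Pool.Agent.W689.Mk (lin lin_mul lin_inv_apply)
open Pool.Agent.W689.Ch (AffMfd Wt exists_wt cont_tsum locfin_of locComp)

section
variable {X Γ E : Type} [TopologicalSpace X] [T2Space X] [Group Γ] [MulAction Γ X]
  [NormedAddCommGroup E] [NormedSpace ℝ E] [FiniteDimensional ℝ E]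
  {dev : X → E} {hol : Γ →* (E ≃ᵃ[ℝ] E)}

omit [TopologicalSpace X] [T2Space X] [MulAction Γ X] in
theorem cl_mul (γ δ : Γ) : cl hol (γ * δ) = (cl hol γ).comp (cl hol δ) := by
  ext v
  exact lin_mul γ δ v

/-- a field without zeros from functionals positive on nonempty invariant sets -/
theorem field_of_sets (D : AffMfd X Γ E dev hol) {M : X → Set E} (hne : ∀ x, (M x).Nonempty)
    (hinv : ∀ (γ : Γ) x v, v ∈ M x → lin hol γ v ∈ M (γ • x))
    (hloc : ∀ x, ∃ φ : E →L[ℝ] ℝ, ∀ᶠ y in 𝓝 x, ∀ v ∈ M y, 0 < φ v) :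
    ∃ Z : X → E, Continuous Z ∧ (∀ (γ : Γ) x, Z (γ • x) = lin hol γ (Z x)) ∧ ∀ x, Z x ≠ 0 := by
  have := locComp D
  obtain ⟨K, hK, hcov⟩ := D.cc
  choose φ hφ using hloc
  have h1 : ∀ x, ∃ U : Set X, IsOpen U ∧ x ∈ U ∧ ∀ y ∈ U, ∀ v ∈ M y, 0 < φ x v := by
    intro x
    obtain ⟨U, hU, hUo, hxU⟩ := eventually_nhds_iff.1 (hφ x)
    exact ⟨U, hUo, hxU, hU⟩
  choose U hUo hxU hU using h1
  have h2 : ∀ x, ∃ g : X → ℝ, Continuous g ∧ HasCompactSupport g ∧ (∀ y, 0 ≤ g y) ∧ g x = 1 ∧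
      ∀ y, g y ≠ 0 → y ∈ U x := by
    intro x
    obtain ⟨g, hg1, hg0, hgc, hg2⟩ := exists_continuous_one_zero_of_isCompact
      (isCompact_singleton (x := x)) (hUo x).isClosed_compl (by
        rw [disjoint_singleton_left]
        exact fun h => h (hxU x))
    refine ⟨g, g.continuous, hgc, fun y => (hg2 y).1, hg1 rfl, fun y hy => ?_⟩
    by_contra hcon
    exact hy (hg0 hcon)
  choose g hgc hgs hgn hg1 hgU using h2
  obtain ⟨t, ht, htK⟩ := hK.elim_nhds_subcover (fun x => {y | 1 / 2 < g x y}) (fun x _ =>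
    (isOpen_lt continuous_const (hgc x)).mem_nhds (by
      show 1 / 2 < g x x
      rw [hg1]; norm_num))
  let G : X → E →L[ℝ] ℝ := fun y => ∑ x ∈ t, g x y • φ x
  have hGc : Continuous G := continuous_finsetSum _ fun x _ => (hgc x).smul continuous_const
  have hGz : ∀ y, (∀ x ∈ t, g x y = 0) → G y = 0 := fun y hy =>
    Finset.sum_eq_zero fun x hx => by rw [hy x hx, zero_smul]
  have hGnn : ∀ y, ∀ v ∈ M y, 0 ≤ G y v := by
    intro y v hv
    show 0 ≤ (∑ x ∈ t, g x y • φ x) v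
    rw [sum_apply]
    refine Finset.sum_nonneg fun x _ => ?_
    rw [smul_apply, smul_eq_mul]
    by_cases h0 : g x y = 0
    · rw [h0, zero_mul]
    · exact mul_nonneg (hgn x y) (hU x y (hgU x y h0) v hv).le
  have hGpos : ∀ y ∈ K, ∀ v ∈ M y, 0 < G y v := by
    intro y hy v hv
    show 0 < (∑ x ∈ t, g x y • φ x) v
    rw [sum_apply]
    obtain ⟨x, hx, hxy⟩ := mem_iUnion₂.1 (htK hy)
    have hxy' : 1 / 2 < g x y := hxy
    refine Finset.sum_pos' (fun x _ => ?_) ⟨x, hx, ?_⟩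
    · rw [smul_apply, smul_eq_mul]
      by_cases h0 : g x y = 0
      · rw [h0, zero_mul]
      · exact mul_nonneg (hgn x y) (hU x y (hgU x y h0) v hv).le
    · rw [smul_apply, smul_eq_mul]
      have h0 : g x y ≠ 0 := by linarith
      exact mul_pos (by linarith) (hU x y (hgU x y h0) v hv)
  -- local finiteness
  have hlf : ∀ x, ∃ V ∈ 𝓝 x, ∃ F : Finset Γ, ∀ γ : Γ, γ ∉ F → ∀ y ∈ V, G (γ • y) = 0 := by
    classical
    intro x
    have h3 : ∀ z, ∃ V ∈ 𝓝 x, ∃ F : Finset Γ, ∀ γ : Γ, γ ∉ F → ∀ y ∈ V, g z (γ • y) = 0 :=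
      fun z => locfin_of D (hgs z) x
    choose V hV F hF using h3
    refine ⟨⋂ z ∈ t, V z, (Filter.biInter_finset_mem t).2 fun z _ => hV z, t.biUnion F,
      fun γ hγ y hy => hGz _ fun z hz => ?_⟩
    refine hF z γ (fun h => hγ (Finset.mem_biUnion.2 ⟨z, hz, h⟩)) y ?_
    exact mem_iInter₂.1 hy z hz
  let Φ : X → E →L[ℝ] ℝ := fun x => ∑' γ : Γ, (G (γ • x)).comp (cl hol γ)
  have hΦf : ∀ x, ∃ V ∈ 𝓝 x, ∃ F : Finset Γ, (∀ γ : Γ, γ ∉ F → ∀ y ∈ V,
      (G (γ • y)).comp (cl hol γ) = 0) := by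
    intro x
    obtain ⟨V, hV, F, hF⟩ := hlf x
    exact ⟨V, hV, F, fun γ hγ y hy => by rw [hF γ hγ y hy, ContinuousLinearMap.zero_comp]⟩
  have hΦc : Continuous Φ := by
    refine cont_tsum (fun γ => ?_) hΦf
    exact (hGc.comp (D.cont γ)).clm_comp continuous_const
  have hΦe : ∀ (δ : Γ) x v, Φ (δ • x) (lin hol δ v) = Φ x v := by
    intro δ x v
    have e1 : Φ x = (Φ (δ • x)).comp (cl hol δ) := by
      obtain ⟨V, hV, F, hF⟩ := hΦf (δ • x)
      have hs : Summable fun γ : Γ => (G (γ • δ • x)).comp (cl hol γ) :=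
        summable_of_ne_finset_zero (s := F) fun γ hγ => hF γ hγ _ (mem_of_mem_nhds hV)
      have e2 : (Φ (δ • x)).comp (cl hol δ) =
          ∑' γ : Γ, ((G (γ • δ • x)).comp (cl hol γ)).comp (cl hol δ) := by
        let R : (E →L[ℝ] ℝ) →L[ℝ] (E →L[ℝ] ℝ) :=
          (ContinuousLinearMap.compL ℝ E E ℝ).flip (cl hol δ)
        have hR : ∀ ψ : E →L[ℝ] ℝ, ψ.comp (cl hol δ) = R ψ := fun ψ => rfl
        simp only [hR]
        exact R.map_tsum hs
      rw [e2]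
      show ∑' γ : Γ, (G (γ • x)).comp (cl hol γ) = _
      rw [← Equiv.tsum_eq (Equiv.mulRight δ) (fun γ : Γ => (G (γ • x)).comp (cl hol γ))]
      refine tsum_congr fun γ => ?_
      show (G ((γ * δ) • x)).comp (cl hol (γ * δ)) = _
      rw [cl_mul, smul_smul, ContinuousLinearMap.comp_assoc]
    rw [e1]
    rfl
  refine field_of_covector D hΦc hΦe fun x h0 => ?_
  obtain ⟨v, hv⟩ := hne x
  obtain ⟨V, hV, F, hF⟩ := hΦf x
  have hx := mem_of_mem_nhds hV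
  have e1 : Φ x = ∑ γ ∈ F, (G (γ • x)).comp (cl hol γ) :=
    tsum_eq_sum fun γ hγ => hF γ hγ x hx
  have e2 : Φ x v = ∑ γ ∈ F, G (γ • x) (lin hol γ v) := by
    rw [e1, sum_apply]
    rfl
  obtain ⟨γ, k, hk, hγ⟩ := hcov x
  have hγ' : γ⁻¹ • x = k := by rw [← hγ, inv_smul_smul]
  have h3 : 0 < G (γ⁻¹ • x) (lin hol γ⁻¹ v) := by
    have := hinv γ⁻¹ x v hv
    rw [hγ'] at this ⊢
    exact hGpos k hk _ this
  have hmem : γ⁻¹ ∈ F := by
    by_contra hcon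
    have h4 := hF _ hcon x hx
    have h5 : (G (γ⁻¹ • x)).comp (cl hol γ⁻¹) v = 0 := by rw [h4]; rfl
    have h6 : G (γ⁻¹ • x) (lin hol γ⁻¹ v) = 0 := h5
    rw [h6] at h3
    exact lt_irrefl _ h3
  have h7 : 0 < Φ x v := by
    rw [e2]
    exact Finset.sum_pos' (fun γ _ => hGnn _ _ (hinv γ x v hv)) ⟨γ⁻¹, hmem, h3⟩
  rw [h0] at h7
  exact lt_irrefl _ h7

/-- the abstract form of the main theorem -/
theorem main_gen (D : AffMfd X Γ E dev hol) {S : X → Set E} (hS : Cont S)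
    (hSi : ∀ (γ : Γ) x, ∀ v ∈ S x, lin hol γ v ∈ S (γ • x)) (hne : ∀ x, (S x).Nonempty)
    {f : X → E → ℝ} (hf : Continuous fun z : X × E => f z.1 z.2) (hp : Proper f)
    (hi : ∀ (γ : Γ) x v, f (γ • x) (lin hol γ v) = f x v)
    (hcrit : ∀ x, (0 : E) ∉ convexHull ℝ (Mn S f x)) :
    ∃ Z : X → E, Continuous Z ∧ (∀ (γ : Γ) x, Z (γ • x) = lin hol γ (Z x)) ∧ ∀ x, Z x ≠ 0 := by
  refine field_of_sets D (M := Mn S f) (fun x => mn_nonempty hS hf hp (hne x))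
    (fun γ x v hv => mn_smul hSi hi γ hv) fun x => ?_
  obtain ⟨φ, hφ⟩ := exists_pos hS hf hp (hcrit x)
  exact ⟨φ, mn_usc hS hf hp (hne x) hφ⟩

end

end Pool.Agent.TH289.N
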