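import Pool.Agent.TH289.N.A3

/-!
# Bad velocities: undefined geodesics and geodesic loops
-/

set_option autoImplicit false

open Set Filter Topology Metric

namespace Pool.Agent.TH289.N

open Pool.Agent.W689.Mk (lin lin_mul lin_inv_apply Ex Sec homeo_of_all hol_add)
open Pool.Agent.W689.Ch (AffMfd Wt exists_wt cont_tsum locfin_of locComp exists_cpt_nhd)

section
variable {X Γ E : Type} [TopologicalSpace X] [T2Space X] [Group Γ] [MulAction Γ X]
  [NormedAddCommGroup E] [NormedSpace ℝ E]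
  {dev : X → E} {hol : Γ →* (E ≃ᵃ[ℝ] E)}

/-- The bad velocities at `x`: those with undefined exponential map, and those of the geodesic
loops at `x` that close up by an element of `C`. -/
def Bad (dev : X → E) (C : Set Γ) (x : X) : Set E :=
  {v | ¬ Dom dev x v ∨ ∃ γ ∈ C, Ex dev x v (γ • x)}

theorem bad_lsc (hloc : IsLocalHomeomorph dev) (hc : ∀ γ : Γ, Continuous fun x : X => γ • x)
    {C : Set Γ} {x0 : X} {v0 : E} (h : v0 ∈ Bad dev C x0) {ε : ℝ} (hε : 0 < ε) :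
    ∀ᶠ x in 𝓝 x0, ∃ v ∈ Bad dev C x, ‖v - v0‖ < ε := by
  rcases h with h | ⟨γ, hγ, hE⟩
  · filter_upwards [lsc hloc h hε] with x ⟨v, hv, hd⟩
    exact ⟨v, Or.inl hd, hv⟩
  · have hd0 := hE.dev_eq
    obtain ⟨U, σ, h1, h2, h3, h4, h5⟩ := hE
    have ho := h1.isOpen_image hloc h1.isOpen Subset.rfl
    have e1 : ∀ᶠ x in 𝓝 x0, x ∈ σ '' U := ho.mem_nhds ⟨_, h2, h3⟩
    have e2 : ∀ᶠ x in 𝓝 x0, γ • x ∈ σ '' U :=
      (hc γ).continuousAt.eventually_mem (ho.mem_nhds ⟨_, h4, h5⟩)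
    have hcv : Continuous fun x : X => dev (γ • x) - dev x :=
      (hloc.continuous.comp (hc γ)).sub hloc.continuous
    have e3 : ∀ᶠ x in 𝓝 x0, dev (γ • x) - dev x ∈ ball v0 ε := by
      refine hcv.continuousAt.eventually_mem (isOpen_ball.mem_nhds ?_)
      show dev (γ • x0) - dev x0 ∈ ball v0 ε
      rw [hd0, add_sub_cancel_left]
      exact mem_ball_self hε
    filter_upwards [e1, e2, e3] with x hx1 hx2 hx3
    obtain ⟨p, hp, hpx⟩ := hx1
    obtain ⟨q, hq, hqx⟩ := hx2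
    have hdx : dev x = p := by rw [← hpx]; exact h1.inv p hp
    have hdg : dev (γ • x) = q := by rw [← hqx]; exact h1.inv q hq
    refine ⟨dev (γ • x) - dev x, Or.inr ⟨γ, hγ, U, σ, h1, by rw [hdx]; exact hp,
      by rw [hdx, hpx], ?_, ?_⟩, ?_⟩
    · rw [add_sub_cancel, hdg]; exact hq
    · rw [add_sub_cancel, hdg, hqx]
    · rwa [mem_ball, dist_eq_norm] at hx3

variable [FiniteDimensional ℝ E]

theorem bad_cl (D : AffMfd X Γ E dev hol) {C : Set Γ} {x0 : X} {v0 : E}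
    (h : v0 ∉ Bad dev C x0) : ∀ᶠ z : X × E in 𝓝 (x0, v0), z.2 ∉ Bad dev C z.1 := by
  have hloc := D.loc
  have hd : Dom dev x0 v0 := by
    by_contra hcon
    exact h (Or.inl hcon)
  have hn : ∀ γ ∈ C, ¬ Ex dev x0 v0 (γ • x0) := fun γ hγ hE => h (Or.inr ⟨γ, hγ, hE⟩)
  have hopen := dom_open hloc hd
  obtain ⟨y, hy⟩ := hd
  have hy' := hy
  obtain ⟨U, σ, h1, h2, h3, h4, h5⟩ := hy
  -- the end point depends continuously on the initial velocity
  have ho := h1.isOpen_image hloc h1.isOpen Subset.rfl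
  have e1 : ∀ᶠ z : X × E in 𝓝 (x0, v0), z.1 ∈ σ '' U :=
    continuousAt_fst.eventually_mem (ho.mem_nhds ⟨_, h2, h3⟩)
  have hcz : Continuous fun z : X × E => dev z.1 + z.2 :=
    (hloc.continuous.comp continuous_fst).add continuous_snd
  have e2 : ∀ᶠ z : X × E in 𝓝 (x0, v0), dev z.1 + z.2 ∈ U :=
    hcz.continuousAt.eventually_mem (h1.isOpen.mem_nhds h4)
  have hσc : ContinuousAt (fun z : X × E => σ (dev z.1 + z.2)) (x0, v0) := by
    have hσ : ContinuousAt σ (dev x0 + v0) :=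
      (h1.cont _ h4).continuousAt (h1.isOpen.mem_nhds h4)
    exact ContinuousAt.comp (f := fun z : X × E => dev z.1 + z.2) (x := (x0, v0)) hσ
      hcz.continuousAt
  have hend : ∀ z : X × E, z.1 ∈ σ '' U → dev z.1 + z.2 ∈ U →
      Ex dev z.1 z.2 (σ (dev z.1 + z.2)) := by
    intro z hz1 hz2
    obtain ⟨q, hq, hqz⟩ := hz1
    have hdz : dev z.1 = q := by rw [← hqz]; exact h1.inv q hq
    exact ⟨U, σ, h1, by rw [hdz]; exact hq, by rw [hdz, hqz], hz2, rfl⟩
  obtain ⟨N1, hN1, hN1c⟩ := exists_cpt_nhd D x0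
  obtain ⟨N2, hN2, hN2c⟩ := exists_cpt_nhd D y
  have hfin := D.pd (N1 ∪ N2) (hN1c.union hN2c)
  have e3 : ∀ᶠ z : X × E in 𝓝 (x0, v0), z.1 ∈ N1 := continuousAt_fst.eventually_mem hN1
  have e4 : ∀ᶠ z : X × E in 𝓝 (x0, v0), σ (dev z.1 + z.2) ∈ N2 := by
    refine hσc.eventually_mem ?_
    show N2 ∈ 𝓝 (σ (dev x0 + v0))
    rw [h5]; exact hN2
  have e5 : ∀ᶠ z : X × E in 𝓝 (x0, v0), ∀ γ ∈ hfin.toFinset, γ ∈ C →
      σ (dev z.1 + z.2) ≠ γ • z.1 := by
    rw [Filter.eventually_all_finset]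
    intro γ _
    by_cases hγ : γ ∈ C
    · have hne : σ (dev x0 + v0) ≠ γ • x0 := by
        intro hcon
        apply hn γ hγ
        rw [← hcon, h5]
        exact hy'
      have hg : ContinuousAt (fun z : X × E => γ • z.1) (x0, v0) :=
        ((D.cont γ).comp continuous_fst).continuousAt
      filter_upwards [(hσc.prodMk hg).eventually_mem
        (isClosed_diagonal.isOpen_compl.mem_nhds hne)] with z hz _ using hz
    · exact Filter.Eventually.of_forall fun z h => absurd h hγ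
  filter_upwards [e1, e2, e3, e4, e5] with z hz1 hz2 hz3 hz4 hz5 hbad
  have hE := hend z hz1 hz2
  rcases hbad with hb | ⟨γ, hγ, hb⟩
  · exact hb ⟨_, hE⟩
  · have heq := hE.unique hloc hb
    refine hz5 γ ?_ hγ heq
    rw [Set.Finite.mem_toFinset]
    exact ⟨z.1, Or.inl hz3, Or.inr (by rw [← heq]; exact hz4)⟩

end

end Pool.Agent.TH289.N
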