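import Pool.Agent.TH289.N.A4

/-!
# The critical point principle for closed affine manifolds
-/

set_option autoImplicit false

open Set Filter Topology Metric

namespace Pool.Agent.TH289.N

open Pool.Agent.W689.Mk (lin lin_mul lin_inv_apply Ex Sec homeo_of_all hol_add hol_inv_apply
  hol_apply_inv hol_cont)
open Pool.Agent.W689.Ch (AffMfd Wt exists_wt cont_tsum locfin_of locComp exists_cpt_nhd)

section
variable {X Γ E : Type} [TopologicalSpace X] [T2Space X] [Group Γ] [MulAction Γ X]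
  [NormedAddCommGroup E] [NormedSpace ℝ E] [FiniteDimensional ℝ E]
  {dev : X → E} {hol : Γ →* (E ≃ᵃ[ℝ] E)}

omit [T2Space X] in
theorem sec_smul (D : AffMfd X Γ E dev hol) (γ : Γ) {U : Set E} {σ : E → X}
    (h : Sec dev U σ) : Sec dev (hol γ '' U) (fun p => γ • σ (hol γ⁻¹ p)) := by
  have hpre : hol γ '' U = hol γ⁻¹ ⁻¹' U := by
    ext p
    constructor
    · rintro ⟨q, hq, rfl⟩
      show hol γ⁻¹ (hol γ q) ∈ U
      rwa [hol_inv_apply]
    · intro hp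
      exact ⟨hol γ⁻¹ p, hp, hol_apply_inv γ p⟩
  have hcont : ∀ γ : Γ, Continuous (hol γ) := fun γ =>
    (hol γ).toAffineMap.continuous_of_finiteDimensional
  refine ⟨?_, ?_, ?_, ?_⟩
  · rw [hpre]; exact h.isOpen.preimage (hcont _)
  · rw [hpre]; exact h.convex.affine_preimage (hol γ⁻¹).toAffineMap
  · refine (D.cont γ).comp_continuousOn (h.cont.comp (hcont _).continuousOn ?_)
    rw [hpre]
    exact fun p hp => hp
  · rintro _ ⟨q, hq, rfl⟩
    rw [D.equi, hol_inv_apply, h.inv q hq]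

omit [T2Space X] in
theorem Ex_smul (D : AffMfd X Γ E dev hol) (γ : Γ) {x : X} {v : E} {y : X}
    (h : Ex dev x v y) : Ex dev (γ • x) (lin hol γ v) (γ • y) := by
  obtain ⟨U, σ, h1, h2, h3, h4, h5⟩ := h
  refine ⟨hol γ '' U, fun p => γ • σ (hol γ⁻¹ p), sec_smul D γ h1, ?_, ?_, ?_, ?_⟩
  · rw [D.equi]; exact ⟨_, h2, rfl⟩
  · rw [D.equi]; beta_reduce; rw [hol_inv_apply, h3]
  · rw [D.equi, ← hol_add]; exact ⟨_, h4, rfl⟩
  · rw [D.equi, ← hol_add]; beta_reduce; rw [hol_inv_apply, h5]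

theorem bad_smul (D : AffMfd X Γ E dev hol) {C : Set Γ} (hC : ∀ γ : Γ, ∀ c ∈ C, γ * c * γ⁻¹ ∈ C)
    (γ : Γ) (x : X) (v : E) (hv : v ∈ Bad dev C x) : lin hol γ v ∈ Bad dev C (γ • x) := by
  rcases hv with h | ⟨c, hc, h⟩
  · left
    intro hcon
    apply h
    have h1 := dom_smul D γ⁻¹ hcon
    rwa [inv_smul_smul, lin_inv_apply] at h1
  · right
    refine ⟨γ * c * γ⁻¹, hC γ c hc, ?_⟩
    have h1 := Ex_smul D γ h
    have h2 : (γ * c * γ⁻¹) • γ • x = γ • c • x := by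
      rw [mul_smul, mul_smul, inv_smul_smul]
    rwa [h2]

omit [FiniteDimensional ℝ E] in
theorem bad_nonempty [PreconnectedSpace X] (hloc : IsLocalHomeomorph dev) {C : Set Γ}
    (hC : C.Nonempty ∨ ¬ IsHomeomorph dev) (x : X) : (Bad dev C x).Nonempty := by
  by_contra hcon
  rw [not_nonempty_iff_eq_empty] at hcon
  have hall : ∀ v, ∃ y, Ex dev x v y := by
    intro v
    by_contra h
    have : v ∈ Bad dev C x := Or.inl h
    rw [hcon] at this
    exact this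
  have hh := homeo_of_all hloc hall
  rcases hC with ⟨c, hc⟩ | h
  · obtain ⟨y, hy⟩ := hall (dev (c • x) - dev x)
    have h1 := hy.dev_eq
    rw [add_sub_cancel] at h1
    have h2 : y = c • x := hh.injective h1
    rw [h2] at hy
    have : dev (c • x) - dev x ∈ Bad dev C x := Or.inr ⟨c, hc, hy⟩
    rw [hcon] at this
    exact this
  · exact h hh

/-- **Main theorem.** -/
theorem main [PreconnectedSpace X] (D : AffMfd X Γ E dev hol) {C : Set Γ}
    (hCc : ∀ γ : Γ, ∀ c ∈ C, γ * c * γ⁻¹ ∈ C) (hC : C.Nonempty ∨ ¬ IsHomeomorph dev)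
    {f : X → E → ℝ} (hf : Continuous fun z : X × E => f z.1 z.2) (hp : Proper f)
    (hi : ∀ (γ : Γ) x v, f (γ • x) (lin hol γ v) = f x v)
    (hcrit : ∀ x, (0 : E) ∉ convexHull ℝ (Mn (Bad dev C) f x)) :
    ∃ Z : X → E, Continuous Z ∧ (∀ (γ : Γ) x, Z (γ • x) = lin hol γ (Z x)) ∧ ∀ x, Z x ≠ 0 :=
  main_gen D ⟨fun _ _ h => bad_cl D h, fun _ _ h _ hε => bad_lsc D.loc D.cont h hε⟩
    (fun γ x v hv => bad_smul D hCc γ x v hv) (fun x => bad_nonempty D.loc hC x) hf hp hi hcrit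

/-- invariant norms exist -/
theorem exists_norm (D : AffMfd X Γ E dev hol) : ∃ f : X → E → ℝ,
    (Continuous fun z : X × E => f z.1 z.2) ∧ Proper f ∧
      ∀ (γ : Γ) x v, f (γ • x) (lin hol γ v) = f x v := by
  obtain ⟨ρ, hρ⟩ := exists_wt D
  let f : X → E → ℝ := fun x v => ∑' γ : Γ, ρ (γ • x) * ‖lin hol γ v‖
  have hlf : ∀ x, ∃ U ∈ 𝓝 x, ∃ F : Finset Γ, ∀ γ : Γ, γ ∉ F → ∀ y ∈ U, ρ (γ • y) = 0 := hρ.locfin
  refine ⟨f, ?_, ?_, ?_⟩
  · rw [continuous_iff_continuousAt]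
    rintro ⟨x, v⟩
    obtain ⟨U, hU, F, hF⟩ := hlf x
    have h1 : ∀ᶠ z : X × E in 𝓝 (x, v), ∑ γ ∈ F, ρ (γ • z.1) * ‖lin hol γ z.2‖ = f z.1 z.2 := by
      filter_upwards [continuousAt_fst.eventually_mem hU] with z hz
      exact (tsum_eq_sum fun γ hγ => by rw [hF γ hγ z.1 hz, zero_mul]).symm
    have h2 : Continuous fun z : X × E => ∑ γ ∈ F, ρ (γ • z.1) * ‖lin hol γ z.2‖ :=
      continuous_finsetSum _ fun γ _ =>
        (hρ.cont.comp ((D.cont γ).comp continuous_fst)).mul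
          (((cl hol γ).continuous.comp continuous_snd).norm)
    exact h2.continuousAt.congr h1
  · intro x0 c
    obtain ⟨U, hU, F, hF⟩ := hlf x0
    have hsum := hρ.sum x0
    have h1 : ∃ γ : Γ, 0 < ρ (γ • x0) := by
      by_contra hcon
      push Not at hcon
      have : ∀ γ : Γ, ρ (γ • x0) = 0 := fun γ => le_antisymm (hcon γ) (hρ.nonneg _)
      simp only [this, tsum_zero] at hsum
      exact zero_ne_one hsum
    obtain ⟨γ, hγ⟩ := h1
    have h2 : ∀ᶠ x in 𝓝 x0, ρ (γ • x0) / 2 < ρ (γ • x) :=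
      (hρ.cont.comp (D.cont γ)).continuousAt.eventually_mem (Ioi_mem_nhds (by
        show ρ (γ • x0) / 2 < ρ (γ • x0)
        linarith))
    refine ⟨‖cl hol γ⁻¹‖ * (|c| / (ρ (γ • x0) / 2)), ?_⟩
    filter_upwards [h2, hU] with x hx hxU v hv
    have h3 : ρ (γ • x) * ‖lin hol γ v‖ ≤ f x v := by
      have hs : Summable fun γ : Γ => ρ (γ • x) * ‖lin hol γ v‖ :=
        summable_of_ne_finset_zero (s := F) fun γ hγ => by rw [hF γ hγ x hxU, zero_mul]
      exact hs.le_tsum γ fun γ' _ => mul_nonneg (hρ.nonneg _) (norm_nonneg _)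
    have h4 : ‖lin hol γ v‖ ≤ |c| / (ρ (γ • x0) / 2) := by
      rw [le_div_iff₀ (by linarith)]
      have h5 : ρ (γ • x0) / 2 * ‖lin hol γ v‖ ≤ ρ (γ • x) * ‖lin hol γ v‖ :=
        mul_le_mul_of_nonneg_right hx.le (norm_nonneg _)
      have := le_abs_self c
      nlinarith
    calc ‖v‖ = ‖cl hol γ⁻¹ (lin hol γ v)‖ := by
          rw [cl_apply, lin_inv_apply]
      _ ≤ ‖cl hol γ⁻¹‖ * ‖lin hol γ v‖ := (cl hol γ⁻¹).le_opNorm _
      _ ≤ _ := by gcongr
  · intro δ x v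
    show ∑' γ : Γ, ρ (γ • δ • x) * ‖lin hol γ (lin hol δ v)‖ = ∑' γ : Γ, ρ (γ • x) * ‖lin hol γ v‖
    rw [← Equiv.tsum_eq (Equiv.mulRight δ) (fun γ : Γ => ρ (γ • x) * ‖lin hol γ v‖)]
    refine tsum_congr fun γ => ?_
    show _ = ρ ((γ * δ) • x) * ‖lin hol (γ * δ) v‖
    rw [smul_smul, lin_mul]

end

section
variable {X E : Type} [TopologicalSpace X] [T2Space X] [NormedAddCommGroup E] [NormedSpace ℝ E]
  {dev : X → E}

/-- geodesics with end points -/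
theorem Ex_iff (hloc : IsLocalHomeomorph dev) {x y : X} {v : E} :
    Ex dev x v y ↔ ∃ c : ℝ → X, ContinuousOn c (Icc 0 1) ∧ c 0 = x ∧ c 1 = y ∧
      ∀ t ∈ Icc (0 : ℝ) 1, dev (c t) = dev x + t • v := by
  have key : ∀ {y : X}, Ex dev x v y → ∃ c : ℝ → X, ContinuousOn c (Icc 0 1) ∧ c 0 = x ∧
      c 1 = y ∧ ∀ t ∈ Icc (0 : ℝ) 1, dev (c t) = dev x + t • v := by
    rintro y ⟨U, σ, h1, h2, h3, h4, h5⟩
    have hm : ∀ t ∈ Icc (0 : ℝ) 1, dev x + t • v ∈ U := by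
      intro t ht
      have := h1.convex h2 h4 (a := 1 - t) (b := t) (by linarith [ht.2]) ht.1 (by ring)
      convert this using 1
      module
    refine ⟨fun t => σ (dev x + t • v), ?_, ?_, ?_, fun t ht => h1.inv _ (hm t ht)⟩
    · exact h1.cont.comp (continuous_const.add
        (continuous_id.smul continuous_const)).continuousOn hm
    · simpa using h3
    · simpa using h5
  refine ⟨key, fun ⟨c, hc, hc0, hc1, hcd⟩ => ?_⟩
  obtain ⟨y', hy'⟩ := Pool.Agent.W689.Mk.Geod.ex hloc (x := x) (v := v) ⟨c, hc, hc0, hcd⟩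
  obtain ⟨c', hc', hc0', hc1', hcd'⟩ := key hy'
  have h := (T2Space.isSeparatedMap dev).eqOn_of_comp_eqOn hloc.isLocallyInjective
    (isPreconnected_Icc (a := (0 : ℝ)) (b := 1)) hc hc'
    (fun t ht => by
      show dev (c t) = dev (c' t)
      rw [hcd t ht, hcd' t ht])
    (a := 0) ⟨le_refl _, zero_le_one⟩ (hc0.trans hc0'.symm)
    (show (1 : ℝ) ∈ Icc (0 : ℝ) 1 from ⟨zero_le_one, le_refl _⟩)
  rw [hc1, hc1'] at h
  rw [h]
  exact hy'

end

end Pool.Agent.TH289.N
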