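import Pool.Agent.TH289.N.A5

/-!
# Equivariant maps to contractible spaces
-/

set_option autoImplicit false

open Set Filter Topology Metric

namespace Pool.Agent.TH289.N

open Pool.Agent.W689.Ch (AffMfd Wt exists_wt cont_tsum locfin_of locComp exists_cpt_nhd)

/-- one step of the construction -/
theorem eqv_step {X Γ Y : Type} [TopologicalSpace X] [Group Γ] [MulAction Γ X]
    [TopologicalSpace Y] [MulAction Γ Y] (hcY : ∀ γ : Γ, Continuous fun y : Y => γ • y)
    (hcX : ∀ γ : Γ, Continuous fun x : X => γ • x)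
    {y0 : Y} (H : ContinuousMap.Homotopy (ContinuousMap.id Y) (ContinuousMap.const Y y0))
    {F G : X → ℝ} (hF : Continuous F) (hG : Continuous G) (hF0 : ∀ x, 0 ≤ F x)
    (hFi : ∀ (γ : Γ) x, F (γ • x) = F x) (hGi : ∀ (γ : Γ) x, G (γ • x) = G x)
    {g : X → ℝ} (hg : Continuous g) (hGg : ∀ x, 0 < G x → ∃ γ : Γ, 0 < g (γ • x))
    {U : Set X} (hgU : ∀ x, 0 < g x → x ∈ U)
    (hU : ∀ γ : Γ, ∀ x ∈ U, γ • x ∈ U → γ = 1)
    {s : X → Y} (hs : ∀ x, 0 < F x → ContinuousAt s x)
    (hse : ∀ (γ : Γ) x, 0 < F x → s (γ • x) = γ • s x) :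
    ∃ s' : X → Y, (∀ x, 0 < F x + G x → 0 ≤ G x → ContinuousAt s' x) ∧
      ∀ (γ : Γ) x, 0 < F x + G x → s' (γ • x) = γ • s' x := by
  classical
  let τ : X → unitInterval := fun u => Set.projIcc 0 1 zero_le_one (G u / F u - 1)
  let r : X → Y := fun u => if 0 < F u then H (τ u, s u) else y0
  let s' : X → Y := fun z => if h : ∃ γ : Γ, 0 < g (γ • z) then h.choose⁻¹ • r (h.choose • z)
    else s z
  have huniq : ∀ (z : X) (γ δ : Γ), 0 < g (γ • z) → 0 < g (δ • z) → γ = δ := by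
    intro z γ δ hγ hδ
    have h1 : (γ * δ⁻¹) • (δ • z) = γ • z := by rw [mul_smul, inv_smul_smul]
    have h2 := hU (γ * δ⁻¹) (δ • z) (hgU _ hδ) (by rw [h1]; exact hgU _ hγ)
    exact mul_inv_eq_one.1 h2
  have hs'1 : ∀ (z : X) (γ : Γ), 0 < g (γ • z) → s' z = γ⁻¹ • r (γ • z) := by
    intro z γ hγ
    have h : ∃ γ : Γ, 0 < g (γ • z) := ⟨γ, hγ⟩
    have h1 : s' z = h.choose⁻¹ • r (h.choose • z) := dif_pos h
    rw [h1, huniq z _ _ h.choose_spec hγ]
  have hr0 : ∀ u, 0 < F u → G u ≤ F u → r u = s u := by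
    intro u h1 h2
    have h3 : r u = H (τ u, s u) := if_pos h1
    have h4 : τ u = 0 := by
      apply Set.projIcc_of_le_left
      rw [sub_nonpos, div_le_one h1]
      exact h2
    rw [h3, h4, H.apply_zero]
    rfl
  have hs'0 : ∀ z, 0 < F z → G z ≤ F z → s' z = s z := by
    intro z h1 h2
    by_cases h : ∃ γ : Γ, 0 < g (γ • z)
    · obtain ⟨γ, hγ⟩ := h
      rw [hs'1 z γ hγ, hr0 _ (by rw [hFi]; exact h1) (by rw [hGi, hFi]; exact h2), hse γ z h1,
        inv_smul_smul]
    · exact dif_neg h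
  have hrc : ∀ u, 0 < F u ∨ 2 * F u < G u → ContinuousAt r u := by
    intro u hu
    rcases hu with hu | hu
    · have h1 : ∀ᶠ w in 𝓝 u, H (τ w, s w) = r w := by
        filter_upwards [hF.continuousAt.eventually_mem (Ioi_mem_nhds hu)] with w hw
        exact (if_pos hw).symm
      refine ContinuousAt.congr ?_ h1
      have h2 : ContinuousAt τ u := by
        refine continuous_projIcc.continuousAt.comp ?_
        exact (hG.continuousAt.div hF.continuousAt hu.ne').sub continuousAt_const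
      exact H.continuous.continuousAt.comp (h2.prodMk (hs u hu))
    · have h1 : ∀ᶠ w in 𝓝 u, y0 = r w := by
        have h2 : ∀ᶠ w in 𝓝 u, 2 * F w < G w :=
          (isOpen_lt (hF.const_mul 2) hG).mem_nhds hu
        filter_upwards [h2] with w hw
        by_cases h3 : 0 < F w
        · have h4 : r w = H (τ w, s w) := if_pos h3
          have h5 : τ w = 1 := by
            apply Set.projIcc_of_right_le
            have : 2 ≤ G w / F w := by rw [le_div_iff₀ h3]; exact hw.le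
            linarith
          rw [h4, h5, H.apply_one]
          rfl
        · exact (if_neg h3).symm
      exact continuousAt_const.congr h1
  refine ⟨s', fun z hz hGz => ?_, fun γ z hz => ?_⟩
  · rcases lt_or_ge (G z) (F z) with h | h
    · have h1 : ∀ᶠ w in 𝓝 z, s w = s' w := by
        have h2 : ∀ᶠ w in 𝓝 z, G w < F w := (isOpen_lt hG hF).mem_nhds h
        have h3 : ∀ᶠ w in 𝓝 z, 0 < F w :=
          hF.continuousAt.eventually_mem (Ioi_mem_nhds (by linarith))
        filter_upwards [h2, h3] with w hw hw'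
        exact (hs'0 w hw' hw.le).symm
      exact (hs z (by linarith)).congr h1
    · have hGpos : 0 < G z := by
        rcases eq_or_lt_of_le (hF0 z) with h0 | h0
        · linarith
        · linarith
      obtain ⟨γ, hγ⟩ := hGg z hGpos
      have h1 : ∀ᶠ w in 𝓝 z, γ⁻¹ • r (γ • w) = s' w := by
        have h2 : ∀ᶠ w in 𝓝 z, 0 < g (γ • w) :=
          (hg.comp (hcX γ)).continuousAt.eventually_mem (Ioi_mem_nhds hγ)
        filter_upwards [h2] with w hw
        exact (hs'1 w γ hw).symm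
      refine ContinuousAt.congr ?_ h1
      have h3 : ContinuousAt r (γ • z) := by
        apply hrc
        rw [hFi, hGi]
        rcases eq_or_lt_of_le (hF0 z) with h0 | h0
        · right; rw [← h0, mul_zero]; exact hGpos
        · left; exact h0
      exact (hcY γ⁻¹).continuousAt.comp (ContinuousAt.comp (f := fun w => γ • w) (x := z) h3
        (hcX γ).continuousAt)
  · by_cases h : ∃ δ : Γ, 0 < g (δ • z)
    · obtain ⟨δ, hδ⟩ := h
      have h1 : 0 < g ((δ * γ⁻¹) • γ • z) := by rwa [mul_smul, inv_smul_smul]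
      rw [hs'1 z δ hδ, hs'1 (γ • z) _ h1]
      rw [mul_smul, inv_smul_smul, mul_inv_rev, inv_inv, mul_smul]
    · have h' : ¬ ∃ δ : Γ, 0 < g (δ • γ • z) := by
        rintro ⟨δ, hδ⟩
        exact h ⟨δ * γ, by rwa [mul_smul]⟩
      have hG0 : ¬ 0 < G z := fun hcon => h (hGg z hcon)
      have e1 : s' z = s z := dif_neg h
      have e2 : s' (γ • z) = s (γ • z) := dif_neg h'
      rw [e1, e2]
      apply hse
      rw [not_lt] at hG0
      linarith

section
variable {X Γ E : Type} [TopologicalSpace X] [T2Space X] [Group Γ] [MulAction Γ X]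
  [NormedAddCommGroup E] [NormedSpace ℝ E] [FiniteDimensional ℝ E]
  {dev : X → E} {hol : Γ →* (E ≃ᵃ[ℝ] E)}

/-- small neighbourhoods for a free action -/
theorem exists_free_nhd (D : AffMfd X Γ E dev hol) (hfree : ∀ γ : Γ, γ ≠ 1 → ∀ x : X, γ • x ≠ x)
    (x : X) : ∃ U : Set X, IsOpen U ∧ x ∈ U ∧ ∀ γ : Γ, ∀ y ∈ U, γ • y ∈ U → γ = 1 := by
  classical
  obtain ⟨N, hN, hNc⟩ := exists_cpt_nhd D x
  have hfin := D.pd N hNc
  have h1 : ∀ γ : Γ, ∃ W ∈ 𝓝 x, γ ≠ 1 → ∀ y ∈ W, γ • y ∉ W := by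
    intro γ
    by_cases hγ : γ = 1
    · exact ⟨univ, univ_mem, fun h => absurd hγ h⟩
    · obtain ⟨A, B, hA, hB, hxA, hxB, hAB⟩ := t2_separation (hfree γ hγ x)
      refine ⟨B ∩ (fun y => γ • y) ⁻¹' A, ?_, fun _ y hy hy' => ?_⟩
      · exact inter_mem (hB.mem_nhds hxB) ((D.cont γ).continuousAt.preimage_mem_nhds
          (hA.mem_nhds hxA))
      · exact disjoint_left.1 hAB hy.2 hy'.1
  choose W hW hW' using h1
  obtain ⟨U, hU, hUo, hxU⟩ := mem_nhds_iff.1
    (inter_mem hN ((Filter.biInter_finset_mem hfin.toFinset).2 fun γ _ => hW γ))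
  refine ⟨U, hUo, hxU, fun γ y hy hy' => ?_⟩
  by_contra hne
  have hm : γ ∈ hfin.toFinset := by
    rw [Set.Finite.mem_toFinset]
    exact ⟨y, (hU hy).1, (hU hy').1⟩
  have h2 := mem_iInter₂.1 (hU hy).2 γ hm
  have h3 := mem_iInter₂.1 (hU hy').2 γ hm
  exact hW' γ hne y h2 h3

/-- equivariant maps to contractible spaces exist -/
theorem exists_eqv (D : AffMfd X Γ E dev hol) (hfree : ∀ γ : Γ, γ ≠ 1 → ∀ x : X, γ • x ≠ x)
    {Y : Type} [TopologicalSpace Y] [MulAction Γ Y] (hcY : ∀ γ : Γ, Continuous fun y : Y => γ • y)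
    [ContractibleSpace Y] :
    ∃ s : X → Y, Continuous s ∧ ∀ (γ : Γ) x, s (γ • x) = γ • s x := by
  classical
  have := locComp D
  obtain ⟨K, hK, hcov⟩ := D.cc
  obtain ⟨y0, ⟨H⟩⟩ := id_nullhomotopic Y
  choose U hUo hxU hU using exists_free_nhd D hfree
  have h2 : ∀ x, ∃ g : X → ℝ, Continuous g ∧ HasCompactSupport g ∧ (∀ y, 0 ≤ g y) ∧ g x = 1 ∧
      ∀ y, 0 < g y → y ∈ U x := by
    intro x
    obtain ⟨g, hg1, hg0, hgc, hg2⟩ := exists_continuous_one_zero_of_isCompact
      (isCompact_singleton (x := x)) (hUo x).isClosed_compl (by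
        rw [disjoint_singleton_left]
        exact fun h => h (hxU x))
    refine ⟨g, g.continuous, hgc, fun y => (hg2 y).1, hg1 rfl, fun y hy => ?_⟩
    by_contra hcon
    exact hy.ne' (hg0 hcon)
  choose g hgc hgs hgn hg1 hgU using h2
  obtain ⟨t, ht, htK⟩ := hK.elim_nhds_subcover (fun x => {y | 1 / 2 < g x y}) (fun x _ =>
    (isOpen_lt continuous_const (hgc x)).mem_nhds (by
      show 1 / 2 < g x x
      rw [hg1]; norm_num))
  let G : X → X → ℝ := fun x z => ∑' γ : Γ, g x (γ • z)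
  have hGc : ∀ x, Continuous (G x) := fun x =>
    cont_tsum (fun γ => (hgc x).comp (D.cont γ)) fun z => locfin_of D (hgs x) z
  have hGs : ∀ x z, Summable fun γ : Γ => g x (γ • z) := by
    intro x z
    obtain ⟨V, hV, F, hF⟩ := locfin_of D (hgs x) z
    exact summable_of_ne_finset_zero (s := F) fun γ hγ => hF γ hγ z (mem_of_mem_nhds hV)
  have hG0 : ∀ x z, 0 ≤ G x z := fun x z => tsum_nonneg fun γ => hgn x _
  have hGi : ∀ x (γ : Γ) z, G x (γ • z) = G x z := by
    intro x δ z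
    show ∑' γ : Γ, g x (γ • δ • z) = ∑' γ : Γ, g x (γ • z)
    rw [← Equiv.tsum_eq (Equiv.mulRight δ) (fun γ : Γ => g x (γ • z))]
    refine tsum_congr fun γ => ?_
    show _ = g x ((γ * δ) • z)
    rw [smul_smul]
  have hGg : ∀ x z, 0 < G x z → ∃ γ : Γ, 0 < g x (γ • z) := by
    intro x z h
    by_contra hcon
    push Not at hcon
    have h0 : ∀ γ : Γ, g x (γ • z) = 0 := fun γ => le_antisymm (hcon γ) (hgn x _)
    have : G x z = 0 := by
      show ∑' γ : Γ, g x (γ • z) = 0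
      simp only [h0, tsum_zero]
    exact h.ne' this
  have key : ∀ T : Finset X, ∃ s : X → Y, (∀ z, 0 < ∑ x ∈ T, G x z → ContinuousAt s z) ∧
      ∀ (γ : Γ) z, 0 < ∑ x ∈ T, G x z → s (γ • z) = γ • s z := by
    intro T
    induction T using Finset.induction_on with
    | empty => exact ⟨fun _ => y0, fun z hz => by simp at hz, fun γ z hz => by simp at hz⟩
    | insert a T ha ih =>
      obtain ⟨s, h1, h2⟩ := ih
      obtain ⟨s', h3, h4⟩ := eqv_step hcY D.cont H (F := fun z => ∑ x ∈ T, G x z) (G := G a)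
        (continuous_finsetSum _ fun x _ => hGc x) (hGc a)
        (fun z => Finset.sum_nonneg fun x _ => hG0 x z)
        (fun γ z => Finset.sum_congr rfl fun x _ => hGi x γ z) (hGi a) (hgc a) (hGg a)
        (U := U a) (hgU a) (hU a) h1 h2
      refine ⟨s', fun z hz => ?_, fun γ z hz => ?_⟩
      · rw [Finset.sum_insert ha, add_comm] at hz
        exact h3 z hz (hG0 a z)
      · rw [Finset.sum_insert ha, add_comm] at hz
        exact h4 γ z hz
  obtain ⟨s, h1, h2⟩ := key t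
  have hpos : ∀ z, 0 < ∑ x ∈ t, G x z := by
    intro z
    obtain ⟨γ, k, hk, hγ⟩ := hcov z
    have hγ' : γ⁻¹ • z = k := by rw [← hγ, inv_smul_smul]
    obtain ⟨x, hx, hxk⟩ := mem_iUnion₂.1 (htK hk)
    have hxk' : 1 / 2 < g x k := hxk
    refine Finset.sum_pos' (fun x _ => hG0 x z) ⟨x, hx, ?_⟩
    have h3 := (hGs x z).le_tsum γ⁻¹ fun γ' _ => hgn x (γ' • z)
    rw [hγ'] at h3
    exact lt_of_lt_of_le (by linarith) h3
  exact ⟨s, continuous_iff_continuousAt.2 fun z => h1 z (hpos z), fun γ z => h2 γ z (hpos z)⟩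

end

end Pool.Agent.TH289.N
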